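import Mathlib
import Pool.Agent.Helper95.FL.Stmts2

set_option autoImplicit false

/-!
# XT-I67: the answers of queries that do not touch `x₀` do not change; nonzero values
-/

namespace Pool.Agent.Helper38.FL

open Pool.Agent.Helper95.FL
open scoped Classical

section aux

variable {V : Type} [Fintype V]

theorem pairA (f y δ : V × V → ℤ) (P : V → ℤ) (B L K : ℤ) :
    pair f (fun e => B * pot P e + L * (3 * K * y e) + L * δ e) =
      B * pair f (pot P) + L * (3 * K * pair f y) + L * pair f δ := by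
  simp only [pair, Finset.mul_sum, ← Finset.sum_add_distrib]
  refine Finset.sum_congr rfl fun e _ => ?_
  ring

theorem pairB (f y : V × V → ℤ) (P : V → ℤ) (B L K : ℤ) :
    pair f (fun e => B * pot P e + L * (3 * K * y e)) =
      B * pair f (pot P) + L * (3 * K * pair f y) := by
  simp only [pair, Finset.mul_sum, ← Finset.sum_add_distrib]
  refine Finset.sum_congr rfl fun e _ => ?_
  ring

theorem pair_smul (g W : V × V → ℤ) (α : ℤ) : pair (fun e => α * g e) W = α * pair g W := by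
  simp only [pair, Finset.mul_sum]
  refine Finset.sum_congr rfl fun e _ => ?_
  ring

theorem pair_add (g h W : V × V → ℤ) : pair (g + h) W = pair g W + pair h W := by
  simp only [pair, ← Finset.sum_add_distrib, Pi.add_apply]
  refine Finset.sum_congr rfl fun e _ => ?_
  ring

theorem pair_sub (g h W : V × V → ℤ) : pair (g - h) W = pair g W - pair h W := by
  simp only [pair, ← Finset.sum_sub_distrib, Pi.sub_apply]
  refine Finset.sum_congr rfl fun e _ => ?_
  ring

theorem sumabs (f : V × V → ℤ) (Q : ℤ) (hQ : 2 ≤ Q) (hS : Small f) (hf : ∀ e, |f e| ≤ Q) :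
    ∑ e, |f e| ≤ 4 * Q := by
  rcases hS with h | h
  · have h1 : ∑ e, |f e| = ∑ e ∈ Finset.univ.filter (fun e => f e ≠ 0), |f e| := by
      rw [Finset.sum_filter]
      refine Finset.sum_congr rfl fun e _ => ?_
      by_cases he : f e = 0
      · simp [he]
      · simp [he]
    rw [h1]
    have h2 : ∑ e ∈ Finset.univ.filter (fun e => f e ≠ 0), |f e| ≤
        ((Finset.univ.filter (fun e => f e ≠ 0)).card : ℤ) * Q := by
      have := Finset.sum_le_card_nsmul (Finset.univ.filter (fun e => f e ≠ 0)) (fun e => |f e|) Q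
        fun e _ => hf e
      simpa using this
    have h3 : ((Finset.univ.filter (fun e => f e ≠ 0)).card : ℤ) ≤ 4 := by exact_mod_cast h
    nlinarith
  · linarith

theorem abs_pair_le (f W : V × V → ℤ) (S M : ℤ) (hS : ∑ e, |f e| ≤ S) (hM : 0 ≤ M)
    (hW : ∀ e, |W e| ≤ M) : |pair f W| ≤ S * M := by
  calc |pair f W| ≤ ∑ e, |f e * W e| := Finset.abs_sum_le_sum_abs _ _
    _ ≤ ∑ e, |f e| * M := by
        refine Finset.sum_le_sum fun e _ => ?_
        rw [abs_mul]
        exact mul_le_mul_of_nonneg_left (hW e) (abs_nonneg _)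
    _ = (∑ e, |f e|) * M := by rw [Finset.sum_mul]
    _ ≤ S * M := mul_le_mul_of_nonneg_right hS hM

theorem sign_add_abs {a b : ℤ} (h : |b| < |a|) : SignType.sign (b + a) = SignType.sign a := by
  rcases lt_trichotomy a 0 with ha | ha | ha
  · rw [abs_of_neg ha, abs_lt] at h
    rw [sign_neg (by linarith), sign_neg ha]
  · subst ha; simp at h; exact absurd h (not_lt.2 (abs_nonneg b))
  · rw [abs_of_pos ha, abs_lt] at h
    rw [sign_pos (by linarith), sign_pos ha]

end aux

theorem h_pot {X V : Type} (𝒞 : Cx X V) (P : V → ℤ) (x : X) : 𝒞.h (pot P) x = 0 := by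
  simp only [Cx.h, pot, Cx.edge, Fin.sum_univ_three]
  have h1 : (0 : Fin 3) + 2 = 2 := rfl
  have h2 : (0 : Fin 3) + 1 = 1 := rfl
  have h3 : (1 : Fin 3) + 2 = 0 := rfl
  have h4 : (1 : Fin 3) + 1 = 2 := rfl
  have h5 : (2 : Fin 3) + 2 = 1 := rfl
  have h6 : (2 : Fin 3) + 1 = 0 := rfl
  rw [h1, h2, h3, h4, h5, h6]
  ring

theorem basic_pot {X V : Type} [Fintype V] (hP : StPairChi) (𝒞 : Cx X V) (P : V → ℤ)
    {g : V × V → ℤ} {τ : Finset X} (hb : 𝒞.Basic g τ) : pair g (pot P) = 0 := by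
  have hc : ∀ x, pair (𝒞.chi x) (pot P) = 0 := fun x => by
    rw [(hP X V 𝒞 (pot P) x).1, h_pot]
  cases hb with
  | one x => exact hc x
  | two x y _ _ => rw [pair_sub, hc, hc, sub_self]
  | three x y z _ _ => rw [pair_add, pair_sub, hc, hc, hc]; ring

theorem basic_bound {X V : Type} [Fintype V] (hP : StPairChi) (𝒞 : Cx X V) (δ : V × V → ℤ)
    (x₀ : X) (M : ℤ) (hM : 0 ≤ M) (hδ : ∀ x, x ≠ x₀ → |𝒞.h δ x| ≤ M)
    {g : V × V → ℤ} {τ : Finset X} (hb : 𝒞.Basic g τ) (hx : x₀ ∉ τ) : |pair g δ| ≤ 3 * M := by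
  have hc : ∀ x, x ≠ x₀ → |pair (𝒞.chi x) δ| ≤ M := fun x hx => by
    rw [(hP X V 𝒞 δ x).1]; exact hδ x hx
  cases hb with
  | one x =>
    simp only [Finset.mem_singleton] at hx
    have := hc x (Ne.symm hx)
    linarith
  | two x y _ _ =>
    simp only [Finset.mem_insert, Finset.mem_singleton, not_or] at hx
    have h1 := hc x (Ne.symm hx.1)
    have h2 := hc y (Ne.symm hx.2)
    rw [pair_sub]
    have := abs_sub (pair (𝒞.chi x) δ) (pair (𝒞.chi y) δ)
    linarith
  | three x y z _ _ =>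
    simp only [Finset.mem_insert, Finset.mem_singleton, not_or] at hx
    have h1 := hc x (Ne.symm hx.1)
    have h2 := hc y (Ne.symm hx.2.1)
    have h3 := hc z (Ne.symm hx.2.2)
    rw [pair_add, pair_sub]
    have := abs_sub (pair (𝒞.chi x) δ) (pair (𝒞.chi y) δ)
    have := abs_add_le (pair (𝒞.chi x) δ - pair (𝒞.chi y) δ) (pair (𝒞.chi z) δ)
    linarith

theorem stSign (hP : StPairChi) : StSign := by
  intro X V _ 𝒞 k P y δ x₀ Y Q L B β f hy hY hyB hδ hδe hQ hβ hB hS hf hcase
  have hL : 0 < L := lt_of_le_of_lt (abs_nonneg _) hβ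
  have hK : (0 : ℤ) < 2 ^ k := by positivity
  have hhy : 3 ≤ 𝒞.h y x₀ ∧ 𝒞.h y x₀ ≤ 3 * Y := by
    simp only [Cx.h, Fin.sum_univ_three]
    have h0 := hy (𝒞.edge 0 x₀)
    have h1 := hy (𝒞.edge 1 x₀)
    have h2 := hy (𝒞.edge 2 x₀)
    constructor <;> linarith [h0.1, h0.2, h1.1, h1.2, h2.1, h2.2]
  have hY0 : 0 ≤ Y := by linarith [hhy.1, hhy.2]
  rw [pairA, pairB]
  rcases hcase with h0 | h0 | ⟨g, τ, α, hα, hb, hfg, hx⟩
  · subst h0
    simp [pair]
  · have hsum := sumabs f Q hQ hS hf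
    have hpy : |pair f y| ≤ 4 * Q * Y := abs_pair_le f y _ Y hsum hY0 fun e => by
      rw [abs_of_nonneg (by linarith [(hy e).1])]; exact (hy e).2
    have hpδ : |pair f δ| ≤ 4 * Q * (2 ^ k * (3 * Y)) :=
      abs_pair_le f δ _ _ hsum (by positivity) fun e => (hδe e).trans
        (mul_le_mul_of_nonneg_left hhy.2 hK.le)
    have hBa : B ≤ |B * pair f (pot P)| := by
      have hB0 : 0 ≤ B := by
        have : 0 ≤ 4 * Q * L * (6 * 2 ^ k * Y) := by positivity
        linarith
      rw [abs_mul, abs_of_nonneg hB0]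
      have : 1 ≤ |pair f (pot P)| := Int.one_le_abs h0
      nlinarith
    have e1 : |L * (3 * 2 ^ k * pair f y)| ≤ L * (3 * 2 ^ k * (4 * Q * Y)) := by
      rw [abs_mul, abs_mul, abs_of_pos hL, abs_of_pos (by positivity : (0 : ℤ) < 3 * 2 ^ k)]
      exact mul_le_mul_of_nonneg_left (mul_le_mul_of_nonneg_left hpy (by positivity)) hL.le
    have e2 : |L * pair f δ| ≤ L * (4 * Q * (2 ^ k * (3 * Y))) := by
      rw [abs_mul, abs_of_pos hL]
      exact mul_le_mul_of_nonneg_left hpδ hL.le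
    have e2' : (0 : ℤ) ≤ L * (4 * Q * (2 ^ k * (3 * Y))) := by positivity
    have e3 : L * (3 * 2 ^ k * (4 * Q * Y)) + L * (4 * Q * (2 ^ k * (3 * Y))) =
        4 * Q * L * (6 * 2 ^ k * Y) := by ring
    have t1 : |β + L * (3 * 2 ^ k * pair f y) + L * pair f δ| < |B * pair f (pot P)| := by
      have a1 := abs_add_le (β + L * (3 * 2 ^ k * pair f y)) (L * pair f δ)
      have a2 := abs_add_le β (L * (3 * 2 ^ k * pair f y))
      linarith
    have t2 : |β + L * (3 * 2 ^ k * pair f y)| < |B * pair f (pot P)| := by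
      have a2 := abs_add_le β (L * (3 * 2 ^ k * pair f y))
      linarith
    have s1 := sign_add_abs t1
    have s2 := sign_add_abs t2
    rw [show β + (B * pair f (pot P) + L * (3 * 2 ^ k * pair f y) + L * pair f δ) =
      β + L * (3 * 2 ^ k * pair f y) + L * pair f δ + B * pair f (pot P) by ring, s1,
      show β + (B * pair f (pot P) + L * (3 * 2 ^ k * pair f y)) =
      β + L * (3 * 2 ^ k * pair f y) + B * pair f (pot P) by ring, s2]
  · have hp0 : pair f (pot P) = 0 := by
      rw [hfg, pair_smul, basic_pot hP 𝒞 P hb, mul_zero]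
    have hpy : pair f y = α * pair g y := by rw [hfg, pair_smul]
    have hpδ : pair f δ = α * pair g δ := by rw [hfg, pair_smul]
    have hu : 1 ≤ |pair g y| := Int.one_le_abs (hyB g τ hb)
    have hv : |pair g δ| ≤ 3 * (3 * Y) :=
      (basic_bound hP 𝒞 δ x₀ _ (by linarith [hhy.1]) hδ hb hx).trans (by linarith [hhy.2])
    have hw0 : 3 * 2 ^ k ≤ |3 * 2 ^ k * pair g y| := by
      rw [abs_mul, abs_of_pos (by positivity : (0 : ℤ) < 3 * 2 ^ k)]
      nlinarith
    have hY' : 3 * Y + 1 ≤ 2 ^ k := hY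
    have hw1 : 3 ≤ |pair g δ + 3 * 2 ^ k * pair g y| := by
      have := abs_sub_abs_le_abs_sub (3 * 2 ^ k * pair g y) (-pair g δ)
      rw [abs_neg, sub_neg_eq_add, add_comm (3 * 2 ^ k * pair g y)] at this
      linarith
    have hws : SignType.sign (pair g δ + 3 * 2 ^ k * pair g y) =
        SignType.sign (3 * 2 ^ k * pair g y) := sign_add_abs (by linarith)
    have hα1 : 1 ≤ |α| := Int.one_le_abs hα
    have key : ∀ w : ℤ, 3 ≤ |w| → SignType.sign (β + α * L * w) =
        SignType.sign (α * L) * SignType.sign w := by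
      intro w hw
      rw [← sign_mul]
      refine sign_add_abs (hβ.trans_le ?_)
      rw [abs_mul, abs_mul, abs_of_pos hL]
      have : L ≤ |α| * L := by nlinarith
      nlinarith
    have h3 : (3 : ℤ) ≤ 3 * 2 ^ k := by nlinarith
    rw [hp0, hpy, hpδ,
      show β + (B * 0 + L * (3 * 2 ^ k * (α * pair g y)) + L * (α * pair g δ)) =
        β + α * L * (pair g δ + 3 * 2 ^ k * pair g y) by ring, key _ hw1, hws,
      show β + (B * 0 + L * (3 * 2 ^ k * (α * pair g y))) =
        β + α * L * (3 * 2 ^ k * pair g y) by ring, key _ (h3.trans hw0)]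

theorem stNZ (hP : StPairChi) : StNZ := by
  intro X V _ 𝒞 k P y Y Q L B f hy hyB hQ hL hB hS hf hcase
  have hK : (0 : ℤ) < 2 ^ k := by positivity
  rw [pairB]
  rcases hcase with h0 | ⟨g, τ, α, hα, hb, hfg⟩
  · have hY0 : 0 ≤ Y := by
      by_contra hcon
      have hE : ∀ e : V × V, False := fun e => by linarith [(hy e).1, (hy e).2]
      refine h0 ?_
      simp only [pair]
      exact Finset.sum_eq_zero fun e _ => (hE e).elim
    have hsum := sumabs f Q hQ hS hf
    have hpy : |pair f y| ≤ 4 * Q * Y := abs_pair_le f y _ Y hsum hY0 fun e => by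
      rw [abs_of_nonneg (by linarith [(hy e).1])]; exact (hy e).2
    have e1 : |L * (3 * 2 ^ k * pair f y)| ≤ L * (3 * 2 ^ k * (4 * Q * Y)) := by
      rw [abs_mul, abs_mul, abs_of_pos hL, abs_of_pos (by positivity : (0 : ℤ) < 3 * 2 ^ k)]
      exact mul_le_mul_of_nonneg_left (mul_le_mul_of_nonneg_left hpy (by positivity)) hL.le
    have e2' : (0 : ℤ) ≤ L * (4 * Q * (2 ^ k * (3 * Y))) := by positivity
    have e3 : L * (3 * 2 ^ k * (4 * Q * Y)) + L * (4 * Q * (2 ^ k * (3 * Y))) =
        4 * Q * L * (6 * 2 ^ k * Y) := by ring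
    have hBa : B ≤ |B * pair f (pot P)| := by
      have hB0 : 0 ≤ B := by linarith
      rw [abs_mul, abs_of_nonneg hB0]
      have : 1 ≤ |pair f (pot P)| := Int.one_le_abs h0
      nlinarith
    intro hz
    have : B * pair f (pot P) = -(L * (3 * 2 ^ k * pair f y)) := by linarith
    rw [this, abs_neg] at hBa
    linarith
  · have hp0 : pair f (pot P) = 0 := by
      rw [hfg, pair_smul, basic_pot hP 𝒞 P hb, mul_zero]
    have hpy : pair f y = α * pair g y := by rw [hfg, pair_smul]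
    rw [hp0, hpy, mul_zero, zero_add]
    exact mul_ne_zero hL.ne' (mul_ne_zero (by positivity) (mul_ne_zero hα (hyB g τ hb)))

end Pool.Agent.Helper38.FL
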