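import Mathlib
import Pool.Agent.Helper95.FL.Stmts2

set_option autoImplicit false

/-!
# XT-I8: the decision tree argument
-/

namespace Pool.Agent.Helper38.FL

open Pool.Agent.Helper22.ETModel (Inst)
open Pool.Agent.Helper95.FL
open scoped Classical

theorem stTree : StTree := by
  intro n D R c A hA hdec X T I₀ I₁ touch hv0 hn0 hT htouch hans
  set q : (Fin R → Bool) → ℕ → Query n := fun ρ t => A.next I₀.flag ρ (A.run I₀ ρ t) with hq
  have hrun : ∀ x ∈ T, ∀ ρ, (∀ t < D, x ∉ touch (q ρ t)) →
      ∀ t ≤ D, A.run (I₁ x) ρ t = A.run I₀ ρ t := by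
    intro x hx ρ h t
    induction t with
    | zero => intro _; rfl
    | succ t ih =>
      intro ht
      have h1 := ih (by omega)
      have h2 := hans (q ρ t) (hA _ _ _) x hx (h t (by omega))
      simp only [Alg.run, h1, (hT x hx).2.2]
      rw [show A.next I₀.flag ρ (A.run I₀ ρ t) = q ρ t from rfl, h2]
  have hcardU : (Finset.univ : Finset (Fin R → Bool)).card = 2 ^ R := by
    simp
  have hx : ∀ x ∈ T, 2 ^ R ≤ 3 *
      (Finset.univ.filter fun ρ : Fin R → Bool => ∃ t < D, x ∈ touch (q ρ t)).card := by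
    intro x hx
    have h0 := hdec I₀ hv0
    have h1 := hdec (I₁ x) (hT x hx).1
    set F0 := Finset.univ.filter fun ρ : Fin R → Bool => (A.output I₀ ρ = true ↔ I₀.Yes) with hF0
    set F1 := Finset.univ.filter fun ρ : Fin R → Bool =>
      (A.output (I₁ x) ρ = true ↔ (I₁ x).Yes) with hF1
    have hsub : F0 ∩ F1 ⊆ (Finset.univ.filter fun ρ : Fin R → Bool =>
        ∃ t < D, x ∈ touch (q ρ t)) := by
      intro ρ hρ
      rw [Finset.mem_inter, hF0, hF1, Finset.mem_filter, Finset.mem_filter] at hρ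
      rw [Finset.mem_filter]
      refine ⟨Finset.mem_univ _, ?_⟩
      by_contra hcon
      push Not at hcon
      have hr := hrun x hx ρ hcon D le_rfl
      have ho : A.output (I₁ x) ρ = A.output I₀ ρ := by
        simp only [Alg.output, hr, (hT x hx).2.2]
      have ha := hρ.1.2
      have hb := hρ.2.2
      rw [ho] at hb
      exact hn0 (ha.1 (hb.2 (hT x hx).2.1))
    have hle := Finset.card_le_card hsub
    have hun := Finset.card_union_add_card_inter F0 F1
    have hU : (F0 ∪ F1).card ≤ 2 ^ R := by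
      rw [← hcardU]; exact Finset.card_le_univ _
    omega
  have hρ : ∀ ρ : Fin R → Bool, (T.filter fun x => ∃ t < D, x ∈ touch (q ρ t)).card ≤ 3 * D := by
    intro ρ
    have hsub : (T.filter fun x => ∃ t < D, x ∈ touch (q ρ t)) ⊆
        (Finset.range D).biUnion fun t => touch (q ρ t) := by
      intro x hx
      rw [Finset.mem_filter] at hx
      obtain ⟨t, ht, hxt⟩ := hx.2
      rw [Finset.mem_biUnion]
      exact ⟨t, Finset.mem_range.2 ht, hxt⟩
    refine (Finset.card_le_card hsub).trans ?_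
    refine Finset.card_biUnion_le.trans ?_
    refine (Finset.sum_le_card_nsmul _ _ 3 fun t _ => htouch _).trans ?_
    simp [Nat.mul_comm]
  have hdc : ∑ x ∈ T, (Finset.univ.filter fun ρ : Fin R → Bool =>
        ∃ t < D, x ∈ touch (q ρ t)).card =
      ∑ ρ : Fin R → Bool, (T.filter fun x => ∃ t < D, x ∈ touch (q ρ t)).card := by
    simp only [Finset.card_filter]
    rw [Finset.sum_comm]
  have h1 : T.card * 2 ^ R ≤ ∑ x ∈ T, 3 * (Finset.univ.filter fun ρ : Fin R → Bool =>
        ∃ t < D, x ∈ touch (q ρ t)).card := by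
    have := Finset.card_nsmul_le_sum T (fun x => 3 * (Finset.univ.filter fun ρ : Fin R → Bool =>
        ∃ t < D, x ∈ touch (q ρ t)).card) (2 ^ R) hx
    simpa using this
  rw [← Finset.mul_sum, hdc] at h1
  have h2 : ∑ ρ : Fin R → Bool, (T.filter fun x => ∃ t < D, x ∈ touch (q ρ t)).card ≤
      2 ^ R * (3 * D) := by
    have := Finset.sum_le_card_nsmul (Finset.univ : Finset (Fin R → Bool))
      (fun ρ => (T.filter fun x => ∃ t < D, x ∈ touch (q ρ t)).card) (3 * D) fun ρ _ => hρ ρ
    rw [hcardU] at this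
    simpa using this
  have h3 : T.card * 2 ^ R ≤ (9 * D) * 2 ^ R := by
    calc T.card * 2 ^ R ≤ _ := h1
      _ ≤ 3 * (2 ^ R * (3 * D)) := Nat.mul_le_mul_left _ h2
      _ = _ := by ring
  exact Nat.le_of_mul_le_mul_right h3 (by positivity)

end Pool.Agent.Helper38.FL
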